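import Mathlib

set_option autoImplicit false

namespace Pool.Agent.H487.I

def AD (M : ℤ) : WeierstrassCurve ℤ :=
  ⟨1, (5 * M - 1) / 4, 1, (71 * M ^ 2 - 1) / 2, -((111 * M ^ 3 + 1) / 4)⟩

open WeierstrassCurve

/-- a finite commutative group with exactly one element of order two, which is not halved -/
theorem two_part {G : Type*} [AddCommGroup G] [Finite G] {A : G} (hA : A + A = 0)
    (A0 : A ≠ 0) (huniq : ∀ x : G, x + x = 0 → x = 0 ∨ x = A)
    (nA : ∀ x : G, x + x ≠ A) : ∃ k, Odd k ∧ Nat.card G = 2 * k := by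
  classical
  let D : G →+ G :=
    { toFun := fun x => x + x, map_zero' := add_zero 0, map_add' := fun x y => by abel }
  have e2 : Nat.card G = Nat.card D.range * Nat.card D.ker := by
    rw [AddSubgroup.card_eq_card_quotient_mul_card_addSubgroup D.ker]
    congr 1
    exact Nat.card_congr (QuotientAddGroup.quotientKerEquivRange D).toEquiv
  have hker : Nat.card D.ker = 2 := by
    have : (D.ker : Set G) = (({0, A} : Finset G) : Set G) := by
      ext x
      simp only [SetLike.mem_coe, AddMonoidHom.mem_ker, Finset.mem_insert,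
        Finset.mem_singleton]
      constructor
      · exact huniq x
      · rintro (rfl | rfl)
        · exact add_zero 0
        · exact hA
    have h2 : Nat.card (D.ker : Set G) = 2 := by
      rw [this, Nat.card_coe_set_eq, Set.ncard_coe_finset, Finset.card_insert_of_notMem,
        Finset.card_singleton]
      simpa using A0.symm
    exact h2
  have hodd : Odd (Nat.card D.range) := by
    rw [← Nat.not_even_iff_odd]
    intro hev
    have : Fact (Nat.Prime 2) := ⟨Nat.prime_two⟩
    obtain ⟨x, hx⟩ := exists_prime_addOrderOf_dvd_card' (G := D.range) 2 hev.two_dvd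
    have hx0 : x ≠ 0 := by
      rintro rfl
      rw [addOrderOf_zero] at hx
      omega
    have hx2 : x + x = 0 := by
      have h3 := addOrderOf_nsmul_eq_zero x
      rw [hx, two_nsmul] at h3
      exact h3
    have hx2' : (x : G) + (x : G) = 0 := by
      have := congrArg (fun y : D.range => (y : G)) hx2
      simpa using this
    obtain ⟨y, hy⟩ := x.2
    have hy' : y + y = (x : G) := hy
    rcases huniq _ hx2' with h | h
    · exact hx0 (Subtype.ext h)
    · exact nA y (hy'.trans h)
  exact ⟨_, hodd, by rw [e2, hker, mul_comm]⟩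

section

variable {W : WeierstrassCurve ℚ} {d : ℚ}

theorem main (g1 : W.a₁ = 1) (g2 : W.a₂ = (5 * d - 1) / 4) (g3 : W.a₃ = 1)
    (g4 : W.a₄ = (71 * d ^ 2 - 1) / 2) (g6 : W.a₆ = -((111 * d ^ 3 + 1) / 4)) (hd : 0 < d)
    (hsq : ¬ IsSquare d) (hf : Finite W.toAffine.Point) :
    ∃ k : ℕ, Odd k ∧ Nat.card W.toAffine.Point = 2 * k := by
  have hns : W.toAffine.Nonsingular (3 * d / 4) (-(3 * d / 4 + 1) / 2) := by
    rw [Affine.nonsingular_iff, Affine.equation_iff]
    refine ⟨?_, Or.inl ?_⟩
    · rw [g1, g2, g3, g4, g6]; ring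
    · rw [g1, g2, g4]
      intro h
      have : d ^ 2 = 0 := by linear_combination (-16 / 625) * h
      have := pow_pos hd 2
      linarith
  have heq : ∀ x y : ℚ, W.toAffine.Nonsingular x y →
      (2 * y + x + 1) ^ 2 = 4 * x ^ 3 + 5 * d * x ^ 2 + 142 * d ^ 2 * x - 111 * d ^ 3 := by
    intro x y h
    have h1 := h.1
    rw [Affine.equation_iff, g1, g2, g3, g4, g6] at h1
    linear_combination 4 * h1
  have hneg : ∀ x y : ℚ, W.toAffine.negY x y = -y - x - 1 := by
    intro x y
    rw [Affine.negY, g1, g3]; ring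
  refine two_part (A := Affine.Point.some _ _ hns) ?_ (Affine.Point.some_ne_zero _) ?_ ?_
  · apply Affine.Point.add_self_of_Y_eq
    rw [hneg]; ring
  · intro P hP
    rcases P with _ | ⟨x, y, h⟩
    · exact Or.inl rfl
    · right
      rw [add_eq_zero_iff_eq_neg, Affine.Point.neg_some, Affine.Point.some.injEq, hneg] at hP
      have hw : 2 * y + x + 1 = 0 := by linarith [hP.2]
      have he := heq x y h
      rw [hw] at he
      have h1 : (4 * x - 3 * d) * ((4 * x - 3 * d + 7 * d) ^ 2 + 576 * d ^ 2) = 0 := by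
        linear_combination (-16) * he
      have h2 : 0 < (4 * x - 3 * d + 7 * d) ^ 2 + 576 * d ^ 2 := by positivity
      have h3 : 4 * x - 3 * d = 0 := by
        rcases mul_eq_zero.1 h1 with h3 | h3
        · exact h3
        · exact absurd h3 h2.ne'
      rw [Affine.Point.some.injEq]
      constructor <;> linarith
  · intro P hP
    rcases P with _ | ⟨x, y, h⟩
    · exact Affine.Point.some_ne_zero hns (hP.symm.trans (add_zero _))
    · have hw : 2 * y + x + 1 ≠ 0 := by
        intro hw0
        have h0 : (Affine.Point.some x y h : W.toAffine.Point) + .some x y h = 0 := by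
          apply Affine.Point.add_self_of_Y_eq
          rw [hneg]; linarith
        rw [h0] at hP
        exact Affine.Point.some_ne_zero _ hP.symm
      have hY : y ≠ W.toAffine.negY x y := by
        rw [hneg]; intro hh; apply hw; linarith
      rw [Affine.Point.add_self_of_Y_ne hY, Affine.Point.some.injEq] at hP
      obtain ⟨hx1, -⟩ := hP
      rw [Affine.slope_of_Y_ne rfl hY, Affine.addX, hneg, g1, g2, g4] at hx1
      set w : ℚ := 2 * y + x + 1 with hwd
      have e0 : y - (-y - x - 1) = w := by rw [hwd]; ring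
      rw [e0] at hx1
      have he := heq x y h
      rw [← hwd] at he
      have hw2 : w ^ 2 ≠ 0 := pow_ne_zero 2 hw
      have h5 : (3 * x ^ 2 + 2 * ((5 * d - 1) / 4) * x + (71 * d ^ 2 - 1) / 2 - 1 * y) ^ 2 +
          (3 * x ^ 2 + 2 * ((5 * d - 1) / 4) * x + (71 * d ^ 2 - 1) / 2 - 1 * y) * w
          - ((5 * d - 1) / 4 + 2 * x + 3 * d / 4) * w ^ 2 = 0 := by
        have h6 := hx1
        field_simp at h6
        linear_combination (1 / 64) * h6
      have hy : y = (w - x - 1) / 2 := by rw [hwd]; ring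
      have h7 : (4 * x ^ 2 - 6 * d * x - 154 * d ^ 2) ^ 2 = 0 := by
        rw [hy] at h5
        linear_combination 16 * h5 + 32 * (x + d) * he
      have h8 : (2 * x + 11 * d) * (x - 7 * d) = 0 := by
        have := pow_eq_zero_iff two_ne_zero |>.1 h7
        linear_combination (1 / 2) * this
      rcases mul_eq_zero.1 h8 with h9 | h9
      · have hx : x = -(11 * d / 2) := by linarith
        rw [hx] at he
        have : w ^ 2 = -((5625 / 4) * d ^ 3) := by linear_combination he
        have h10 : 0 < d ^ 3 := pow_pos hd 3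
        have h11 : 0 ≤ w ^ 2 := sq_nonneg w
        linarith
      · have hx : x = 7 * d := by linarith
        rw [hx] at he
        apply hsq
        refine ⟨w / (50 * d), ?_⟩
        have h10 : w ^ 2 = 2500 * d ^ 3 := by linear_combination he
        field_simp
        linear_combination -h10

end

theorem tors {D : ℕ} (h1 : 1 < D) (hs : Squarefree D) (hm : D % 4 = 1)
    (hf : Finite ((AD (D : ℤ)).map (Int.castRingHom ℚ)).toAffine.Point) :
    ∃ k : ℕ, Odd k ∧ Nat.card (AddCommGroup.torsion ((AD (D : ℤ)).map (Int.castRingHom ℚ)).toAffine.Point) =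
      2 * k := by
  obtain ⟨q, hq⟩ : ∃ q : ℕ, D = 4 * q + 1 := ⟨D / 4, by omega⟩
  have hqz : (D : ℤ) = 4 * (q : ℤ) + 1 := by exact_mod_cast hq
  have hqr : (D : ℚ) = 4 * (q : ℚ) + 1 := by exact_mod_cast hq
  have c2 : (5 * (D : ℤ) - 1) / 4 = 5 * q + 1 := by
    rw [hqz]; omega
  have c4 : (71 * (D : ℤ) ^ 2 - 1) / 2 = 568 * (q : ℤ) ^ 2 + 284 * q + 35 := by
    rw [hqz]
    apply Int.ediv_eq_of_eq_mul_left two_ne_zero
    ring
  have c6 : (111 * (D : ℤ) ^ 3 + 1) / 4 = 111 * (16 * (q : ℤ) ^ 3 + 12 * q ^ 2 + 3 * q) + 28 := by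
    rw [hqz]
    apply Int.ediv_eq_of_eq_mul_left four_ne_zero
    ring
  have hcard : Nat.card (AddCommGroup.torsion
      ((AD (D : ℤ)).map (Int.castRingHom ℚ)).toAffine.Point) =
      Nat.card ((AD (D : ℤ)).map (Int.castRingHom ℚ)).toAffine.Point := by
    have ht : AddCommGroup.torsion ((AD (D : ℤ)).map (Int.castRingHom ℚ)).toAffine.Point = ⊤ := by
      rw [eq_top_iff]
      intro x _
      exact isOfFinAddOrder_of_finite x
    rw [ht]
    exact Nat.card_congr AddSubgroup.topEquiv.toEquiv
  rw [hcard]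
  apply main (d := (D : ℚ))
  · simp [AD]
  · show ((((5 * (D : ℤ) - 1) / 4 : ℤ)) : ℚ) = _
    rw [c2, hqr]; push_cast; ring
  · simp [AD]
  · show ((((71 * (D : ℤ) ^ 2 - 1) / 2 : ℤ)) : ℚ) = _
    rw [c4, hqr]; push_cast; ring
  · show (((-((111 * (D : ℤ) ^ 3 + 1) / 4) : ℤ)) : ℚ) = _
    rw [c6, hqr]; push_cast; ring
  · exact_mod_cast (by omega : 0 < D)
  · rw [Rat.isSquare_natCast_iff]
    rintro ⟨s, hs2⟩
    have h3 : IsUnit s := hs s ⟨1, by rw [hs2, mul_one]⟩
    rw [Nat.isUnit_iff] at h3
    rw [h3] at hs2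
    omega
  · exact hf

end Pool.Agent.H487.I
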